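import Mathlib

set_option autoImplicit false
open Set Filter Topology MeasureTheory
open scoped ENNReal NNReal

namespace Pool.Agent.H.MP_4648ce_an

structure Sys (T : ℝ → ℝ) (X : Set ℝ) (f : ℕ → ℝ → ℝ) : Prop where
  sub : X ⊆ Icc 0 1
  maps : MapsTo T X X
  zero : T 0 = 0
  cnt : {y ∈ X | T y = 0}.Countable
  dig : ∀ y ∈ X, T y ≠ 0 → ∃ a, y = f a (T y)
  inv : ∀ a, ∀ u ∈ Ioo (0 : ℝ) 1, f a u ∈ X ∧ T (f a u) = u
  lo : ∀ a : ℕ, ∀ u ∈ Icc (0 : ℝ) 1, ∀ v ∈ Icc (0 : ℝ) 1, |u - v| ≤ (a + 2) ^ 2 * |f a u - f a v|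
  hi : ∀ a : ℕ, ∀ u ∈ Icc (0 : ℝ) 1, ∀ v ∈ Icc (0 : ℝ) 1, (a + 1) ^ 2 * |f a u - f a v| ≤ |u - v|
  rng : ∀ a : ℕ, ∀ u ∈ Icc (0 : ℝ) 1, 1 / (a + 2) ≤ f a u ∧ f a u ≤ 1 / (a + 1)
  adj : ∃ e : ℝ, (e = 0 ∨ e = 1) ∧ ∀ a : ℕ, f a e = 1 / (a + 2) ∧ f a (1 - e) = 1 / (a + 1)

def AS (T : ℝ → ℝ) (X : Set ℝ) (x : ℝ) : Set ℝ :=
  {y ∈ X | Tendsto (fun n => |T^[n] x - T^[n] y|) atTop (𝓝 0)}

def Orb (f : ℕ → ℝ → ℝ) (a : ℕ → ℕ) (y : ℕ → ℝ) : Prop :=
  ∀ n, y n ∈ Icc (0 : ℝ) 1 ∧ y n = f (a n) (y (n + 1))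

variable {T : ℝ → ℝ} {X : Set ℝ} {f : ℕ → ℝ → ℝ}

lemma Sys.pre (h : Sys T X f) {C : Set ℝ} (hC : C.Countable) (n : ℕ) :
    {y ∈ X | T^[n] y ∈ C}.Countable := by
  induction n with
  | zero => exact hC.mono fun y hy => hy.2
  | succ n ih =>
    refine (h.cnt.union (countable_iUnion fun a => ih.image (f a))).mono fun y hy => ?_
    by_cases e : T y = 0
    · exact .inl ⟨hy.1, e⟩
    · obtain ⟨a, ha⟩ := h.dig y hy.1 e
      exact .inr (mem_iUnion.2 ⟨a, T y, ⟨h.maps hy.1, hy.2⟩, ha.symm⟩)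

lemma Sys.bad (h : Sys T X f) : {y ∈ X | ∃ n, T^[n] y = 0}.Countable :=
  (countable_iUnion fun n => h.pre (countable_singleton 0) n).mono fun _ hy => by
    obtain ⟨h1, n, h2⟩ := hy
    exact mem_iUnion.2 ⟨n, h1, h2⟩

lemma Sys.orb (h : Sys T X f) {y : ℝ} (hy : y ∈ X) (g : ¬∃ n, T^[n] y = 0) :
    ∃ a, Orb f a fun n => T^[n] y := by
  choose a ha using fun n => h.dig _ (h.maps.iterate n hy) fun e =>
    g (Exists.intro (n + 1) (by rwa [Function.iterate_succ_apply']))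
  exact ⟨a, fun n => ⟨h.sub (h.maps.iterate n hy), by simpa only [Function.iterate_succ_apply'] using ha n⟩⟩

lemma Sys.hi' (h : Sys T X f) (a : ℕ) {u v : ℝ} (hu : u ∈ Icc (0 : ℝ) 1) (hv : v ∈ Icc (0 : ℝ) 1) :
    |f a u - f a v| ≤ |u - v| :=
  (le_mul_of_one_le_left (abs_nonneg _) (one_le_pow₀ (by simp))).trans (h.hi a u hu v hv)

lemma Sys.mem (h : Sys T X f) (a : ℕ) {u : ℝ} (hu : u ∈ Icc (0 : ℝ) 1) : f a u ∈ Icc (0 : ℝ) 1 :=
  ⟨le_trans (by positivity) (h.rng a u hu).1, (h.rng a u hu).2.trans (by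
    rw [div_le_one (by positivity)]; simp)⟩

lemma Sys.ex (h : Sys T X f) (a : ℕ → ℕ) (ha : ∃ᶠ n in atTop, a n ≠ 0) :
    ∃ x ∈ X, Orb f a fun n => T^[n] x := by
  obtain ⟨y, hy⟩ : ∃ y, Orb f a y := by
    have c : ∀ b, Continuous fun u : Icc (0 : ℝ) 1 => f b u := fun b =>
      (LipschitzWith.of_dist_le_mul (K := 1) fun u v => by
        rw [NNReal.coe_one, one_mul]; exact h.hi' b u.2 v.2).continuous
    have ne : ∀ (n : ℕ) (a : ℕ → ℕ), ∃ y : ℕ → Icc (0 : ℝ) 1, ∀ j < n, (y j : ℝ) = f (a j) (y (j + 1)) :=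
      fun n => by
        induction n with
        | zero => exact fun _ => ⟨fun _ => 0, by simp⟩
        | succ n ih =>
          intro a
          obtain ⟨y, hy⟩ := ih fun j => a (j + 1)
          refine ⟨fun j => j.casesOn ⟨_, h.mem (a 0) (y 0).2⟩ y, ?_⟩
          rintro (_ | j) hj
          exacts [rfl, hy j (by omega)]
    obtain ⟨y, hy⟩ := IsCompact.nonempty_iInter_of_sequence_nonempty_isCompact_isClosed
      (fun n : ℕ => {y : ℕ → Icc (0 : ℝ) 1 | ∀ j < n, (y j : ℝ) = f (a j) (y (j + 1))})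
      (fun n y hy j hj => hy j (by omega)) (fun n => ne n a) (by simpa using isCompact_univ) fun n => by
        simp only [ofPred_forall]
        exact isClosed_iInter fun j => isClosed_iInter fun _ => isClosed_eq (by fun_prop)
          ((c _).comp (continuous_apply _))
    exact ⟨fun n => y n, fun n => ⟨(y n).2, mem_iInter.1 hy (n + 1) n (by omega)⟩⟩
  have p : ∀ n, 0 < y n := fun n => (hy n).2 ▸ lt_of_lt_of_le (by positivity) (h.rng _ _ (hy (n + 1)).1).1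
  have q : ∀ d n, a (n + d) ≠ 0 → y n < 1 := fun d => by
    have k : ∀ n, a n ≠ 0 → y n < 1 := fun n e => (hy n).2 ▸ (h.rng _ _ (hy (n + 1)).1).2.trans_lt (by
      rw [div_lt_one (by positivity)]; simpa using Nat.pos_of_ne_zero e)
    induction d with
    | zero => exact k
    | succ d ih =>
      intro n hn
      by_cases e : a n = 0
      · obtain ⟨t, t1, t2⟩ := h.adj
        refine (hy n).1.2.lt_of_ne fun e1 => ?_
        have := h.lo 0 _ (hy (n + 1)).1 (1 - t) (by rcases t1 with rfl | rfl <;> simp)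
        have e2 := (hy n).2
        rw [e, e1] at e2
        rw [(t2 0).2, ← e2] at this
        have a1 := ih (n + 1) (by rwa [add_right_comm])
        have a2 := p (n + 1)
        simp [sub_eq_zero] at this
        rcases t1 with rfl | rfl <;> linarith
      · exact k n e
  have r : ∀ n, y n ∈ Ioo (0 : ℝ) 1 := fun n => by
    obtain ⟨m, h1, h2⟩ := frequently_atTop.1 ha n
    exact ⟨p n, q (m - n) n (by rwa [Nat.add_sub_cancel' h1])⟩
  have e : ∀ n, T^[n] (y 0) = y n := fun n => by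
    induction n with
    | zero => rfl
    | succ n ih => rw [Function.iterate_succ_apply', ih, (hy n).2, (h.inv _ _ (r _)).2]
  exact ⟨y 0, (hy 0).2 ▸ (h.inv _ _ (r _)).1, by simpa only [e] using hy⟩

lemma Sys.same (h : Sys T X f) (M : ℕ) : ∃ ε > 0, ∀ a b : ℕ, ∀ u ∈ Icc (0 : ℝ) 1, ∀ v ∈ Icc (0 : ℝ) 1,
    a < M ∨ b < M → |f a u - f b v| < ε → |u - v| < ε → a = b := by
  obtain ⟨t, t1, t2⟩ := h.adj
  obtain ⟨ε, e0, e1⟩ : ∃ ε : ℝ, 0 < ε ∧ (M + 2) ^ 2 * ε = 1 / 3 := ⟨1 / (3 * (M + 2) ^ 2), by positivity, by field_simp⟩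
  have k : ∀ a b : ℕ, ∀ u ∈ Icc (0 : ℝ) 1, ∀ v ∈ Icc (0 : ℝ) 1, a < M → a < b → |f a u - f b v| < ε →
      |u - v| < ε → False := fun a b u hu v hv aM ab h1 h2 => by
    have aM' : (a : ℝ) + 1 ≤ M := by exact_mod_cast aM
    have a0 : (0 : ℝ) ≤ a := a.cast_nonneg
    have r1 := (h.rng a u hu).1
    have r2 := (h.rng b v hv).2
    rw [abs_lt] at h1
    obtain rfl : b = a + 1 := by
      by_contra hh
      have : (a : ℝ) + 3 ≤ b + 1 := by exact_mod_cast (by omega : a + 3 ≤ b + 1)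
      have : 1 / (b + 1 : ℝ) ≤ 1 / (a + 3) := by gcongr
      have e : 1 / (a + 2 : ℝ) - 1 / (a + 3) = 1 / ((a + 2) * (a + 3)) := by field_simp; ring
      have : ε ≤ 1 / ((a + 2) * (a + 3) : ℝ) := by
        have : ε * ((a + 2) * (a + 3)) ≤ ε * ((M + 2) * (M + 2)) := mul_le_mul_of_nonneg_left
          (mul_le_mul (by linarith) (by linarith) (by positivity) (by positivity)) e0.le
        rw [le_div_iff₀ (by positivity)]; nlinarith
      linarith
    have l1 := h.lo a u hu t (by rcases t1 with rfl | rfl <;> simp)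
    have l2 := h.lo (a + 1) v hv (1 - t) (by rcases t1 with rfl | rfl <;> simp)
    rw [(t2 _).1, abs_of_nonneg (sub_nonneg.2 r1)] at l1
    rw [(t2 _).2, abs_of_nonpos (sub_nonpos.2 r2)] at l2
    push_cast at r2 l2 h1
    rw [show (a : ℝ) + 1 + 1 = a + 2 by ring] at r2 l2
    have m1 : (a + 2 : ℝ) ^ 2 * (f a u - 1 / (a + 2)) ≤ (M + 2) ^ 2 * ε := by gcongr <;> linarith
    have m2 : (a + 1 + 2 : ℝ) ^ 2 * -(f (a + 1) v - 1 / (a + 2)) ≤ (M + 2) ^ 2 * ε := by gcongr <;> linarith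
    have : ε < 1 / 3 := by nlinarith
    rw [abs_le] at l1 l2
    rw [abs_lt] at h2
    rcases t1 with rfl | rfl <;> linarith
  refine ⟨ε, e0, fun a b u hu v hv hM h1 h2 => ?_⟩
  rcases lt_trichotomy a b with l | l | l
  · exact (k a b u hu v hv (by omega) l h1 h2).elim
  · exact l
  · exact (k b a v hv u hu (by omega) l (by rwa [abs_sub_comm]) (by rwa [abs_sub_comm])).elim

lemma Sys.evs (h : Sys T X f) (M : ℕ) {a c : ℕ → ℕ} {x y : ℕ → ℝ} (hx : Orb f c x) (hy : Orb f a y)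
    (t : Tendsto (fun n => |x n - y n|) atTop (𝓝 0)) : ∀ᶠ n in atTop, c n < M ∨ a n < M → c n = a n := by
  obtain ⟨ε, e0, e1⟩ := h.same M
  filter_upwards [t.eventually_lt_const e0, (t.comp (tendsto_add_atTop_nat 1)).eventually_lt_const e0]
    with n h1 h2 hM
  exact e1 _ _ _ (hx (n + 1)).1 _ (hy (n + 1)).1 hM (by rwa [← (hx n).2, ← (hy n).2]) h2

lemma Sys.ctb (h : Sys T X f) {x : ℝ} {c : ℕ → ℕ} (hx : Orb f c fun n => T^[n] x) {M : ℕ}
    (hc : ∀ᶠ n in atTop, c n < M) : (AS T X x).Countable := by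
  refine (h.bad.union (countable_iUnion fun n => h.pre (countable_singleton (T^[n] x)) n)).mono
    fun y hy => (em (∃ n, T^[n] y = 0)).imp (fun g => ⟨hy.1, g⟩) fun g => ?_
  obtain ⟨a, ha⟩ := h.orb hy.1 g
  obtain ⟨m, hm⟩ := eventually_atTop.1 (hc.and (h.evs M hx ha hy.2))
  refine mem_iUnion.2 ⟨m, hy.1, (sub_eq_zero.1 (abs_nonpos_iff.1 (ge_of_tendsto hy.2
    (eventually_atTop.2 ⟨m, fun n hn => ?_⟩)))).symm⟩
  induction n, hn using Nat.le_induction with
  | base => rfl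
  | succ n hn ih =>
    refine ih.trans ?_
    have := h.hi' (a n) (hx (n + 1)).1 (ha (n + 1)).1
    rwa [← (ha n).2, ← (hm n hn).2 (.inl (hm n hn).1), ← (hx n).2] at this

noncomputable def ct (s : ℝ) : OuterMeasure ℝ := .boundedBy fun A => Metric.ediam A ^ s

lemma ct_dim {s : ℝ≥0} (s0 : 0 < s) {E : Set ℝ} (h : ct s E = 0) : dimH E ≤ s := by
  have : ∀ n : ℕ, ∃ t : ℕ → Set ℝ, E ⊆ ⋃ i, t i ∧ ∑' i, Metric.ediam (t i) ^ (s : ℝ) < ((n : ℝ≥0∞)⁻¹) ^ (s : ℝ) :=
    fun n => by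
      have : ct s E < ((n : ℝ≥0∞)⁻¹) ^ (s : ℝ) := h ▸ ENNReal.rpow_pos_of_nonneg (by simp) s.2
      rw [ct, OuterMeasure.boundedBy_eq_ofFunction (by simpa), OuterMeasure.ofFunction_apply] at this
      simpa [iInf_lt_iff] using this
  choose t t1 t2 using this
  refine dimH_le_of_hausdorffMeasure_ne_top (ne_top_of_le_ne_top ENNReal.one_ne_top
    ((Measure.hausdorffMeasure_le_liminf_tsum s E _ ENNReal.tendsto_inv_nat_nhds_zero t
      (.of_forall fun n i => ?_) (.of_forall t1)).trans (liminf_le_of_frequently_le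
        ((eventually_ge_atTop 1).mono fun n hn => (t2 n).le.trans ?_).frequently)))
  · exact (ENNReal.rpow_le_rpow_iff s0).1 ((ENNReal.le_tsum i).trans (t2 n).le)
  · exact ENNReal.rpow_le_one (by simpa) s.2

lemma ct_cnt {s : ℝ} (s0 : 0 < s) {E : Set ℝ} (h : E.Countable) : ct s E = 0 := by
  rw [← biUnion_of_singleton E, measure_biUnion_null_iff h]
  exact fun x _ => nonpos_iff_eq_zero.1 ((OuterMeasure.boundedBy_le _).trans (by simpa))

lemma Sys.img (h : Sys T X f) {s : ℝ} (s0 : 0 < s) (a : ℕ) {E : Set ℝ} (hE : E ⊆ Icc 0 1) :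
    ct s (f a '' E) ≤ .ofReal ((a + 1) ^ (-2 * s)) * ct s E := by
  let g := fun u : ℝ => f a (projIcc (0 : ℝ) 1 zero_le_one u)
  have gl : LipschitzWith (((a + 1) ^ 2)⁻¹) g := .of_dist_le_mul fun u v => by
    have := (h.hi a _ (projIcc 0 1 zero_le_one u).2 _ (projIcc 0 1 zero_le_one v).2).trans
      (abs_projIcc_sub_projIcc _)
    push_cast
    rwa [le_inv_mul_iff₀ (by positivity)]
  have : OuterMeasure.comap g (ct s) ≤ ENNReal.ofReal ((a + 1) ^ (-2 * s)) • ct s := by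
    rw [ct, OuterMeasure.smul_boundedBy ENNReal.ofReal_ne_top, OuterMeasure.le_boundedBy]
    intro A
    rw [OuterMeasure.comap_apply]
    refine (OuterMeasure.boundedBy_le _).trans ((ENNReal.rpow_le_rpow (gl.ediam_image_le A)
      s0.le).trans_eq ?_)
    have e : (((((a : ℝ≥0) + 1) ^ 2)⁻¹ : ℝ≥0) : ℝ≥0∞) = .ofReal ((a + 1) ^ (-2 : ℝ)) := by
      rw [← ENNReal.ofReal_coe_nnreal, Real.rpow_neg (by positivity)]; simp
    rw [ENNReal.mul_rpow_of_nonneg _ _ s0.le, e, ENNReal.ofReal_rpow_of_nonneg (by positivity) s0.le,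
      ← Real.rpow_mul (by positivity)]
    rfl
  rw [← image_congr (f := g) fun u hu => by simp [g, projIcc_of_mem _ (hE hu)]]
  exact this E

noncomputable def sg (p : ℝ) (D : Set ℕ) : ℝ≥0∞ := ∑' a, D.indicator (fun a => .ofReal ((a + 1) ^ (-p))) a

def Wt (f : ℕ → ℝ → ℝ) (t R : ℝ) (n : ℕ) (D : ℕ → Set ℕ) (P : ℝ) : Set ℝ :=
  {p | ∃ a y, Orb f a y ∧ y 0 = p ∧ (∀ j < n, a j ∈ D j) ∧
    (P * ∏ j ∈ Finset.range n, (a j + 1 : ℝ)) ^ t ≤ (a n + 1) * R}

lemma Sys.cov (h : Sys T X f) {s t R : ℝ} (s0 : 0 < s) (R0 : 0 ≤ R) (n : ℕ) (D : ℕ → Set ℕ) {P : ℝ}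
    (P0 : 0 < P) : ct s (Wt f t R n D P) ≤
      .ofReal ((R / P ^ t) ^ s) * ∏ j ∈ Finset.range n, sg ((2 + t) * s) (D j) := by
  induction n generalizing D P with
  | zero =>
    refine (measure_mono (t := Icc 0 (R / P ^ t)) ?_).trans ((OuterMeasure.boundedBy_le _).trans ?_)
    · rintro _ ⟨a, y, h1, rfl, -, h2⟩
      refine ⟨(h1 0).1.1, (h1 0).2 ▸ (h.rng _ _ (h1 1).1).2.trans ?_⟩
      rw [div_le_div_iff₀ (by positivity) (by positivity)]
      simpa [mul_comm] using h2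
    · simp [Real.ediam_Icc, ENNReal.ofReal_rpow_of_nonneg (by positivity : 0 ≤ R / P ^ t) s0.le]
  | succ n ih =>
    refine (measure_mono (t := ⋃ b, ⋃ _ : b ∈ D 0, f b '' Wt f t R n (fun j => D (j + 1)) (P * (b + 1)))
      ?_).trans ((measure_iUnion_le _).trans ?_)
    · rintro _ ⟨a, y, h1, rfl, h2, h3⟩
      refine mem_iUnion₂.2 ⟨a 0, h2 0 (by omega), y 1, ⟨fun j => a (j + 1), fun j => y (j + 1),
        fun j => h1 (j + 1), rfl, fun j hj => h2 _ (by omega), ?_⟩, (h1 0).2.symm⟩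
      rwa [Finset.prod_range_succ', mul_comm (∏ _ ∈ _, _), ← mul_assoc] at h3
    rw [Finset.prod_range_succ', ← mul_assoc, sg, ← ENNReal.tsum_mul_left]
    refine ENNReal.tsum_le_tsum fun b => ?_
    by_cases c : b ∈ D 0
    · simp only [c, iUnion_true, indicator_of_mem]
      refine (h.img s0 b ?_).trans ((mul_le_mul_right (ih _ (by positivity)) _).trans_eq ?_)
      · rintro _ ⟨a, y, h1, rfl, -⟩
        exact (h1 0).1
      rw [mul_right_comm, ← mul_assoc, ← ENNReal.ofReal_mul (by positivity),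
        ← ENNReal.ofReal_mul (by positivity), Real.mul_rpow P0.le (by positivity), ← div_div,
        Real.div_rpow (by positivity) (by positivity), ← Real.rpow_mul (by positivity),
        show -((2 + t) * s) = -2 * s - t * s by ring, Real.rpow_sub (by positivity)]
      congr 2; ring
    · simp [c]

lemma sg_top {p : ℝ} (hp : 1 < p) (D : Set ℕ) : sg p D ≠ ∞ :=
  ne_top_of_le_ne_top ((summable_nat_add_iff 1).2 (Real.summable_nat_rpow.2
    (by linarith : -p < -1))).tsum_ofReal_ne_top (ENNReal.tsum_le_tsum fun a =>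
      (indicator_le_self _ _ a).trans_eq (by simp))

lemma sg_one (p : ℝ) (b : ℕ) : sg p {b} = .ofReal ((b + 1) ^ (-p)) := by
  rw [sg, tsum_eq_single b fun a h => by simp [h]]; simp

lemma Sys.half (h : Sys T X f) {x : ℝ} (hx : x ∈ X) : dimH (AS T X x) ≤ 1 / 2 := by
  refine le_of_forall_gt_imp_ge_of_dense fun s hs => ?_
  rcases eq_or_ne s ∞ with rfl | st
  · exact le_top
  lift s to ℝ≥0 using st
  have s1 : (1 / 2 : ℝ) < s := by
    rw [← ENNReal.ofReal_lt_ofReal_iff_of_nonneg (by norm_num)]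
    simpa [ENNReal.ofReal_inv_of_pos] using hs
  have p1 : (1 : ℝ) < (2 + 0) * s := by linarith
  obtain ⟨M, hM⟩ : ∃ M, sg ((2 + 0) * s) (Ici M) ≤ 1 / 2 := by
    obtain ⟨M, hM⟩ := ((ENNReal.tendsto_sum_nat_add _ (sg_top p1 univ)).eventually_le_const
      (by norm_num : (0 : ℝ≥0∞) < 1 / 2)).exists
    refine ⟨M, le_trans (le_of_eq ?_) hM⟩
    rw [sg, ← (add_left_injective M).tsum_eq fun a ha => ⟨a - M, Nat.sub_add_cancel (by
      by_contra hh; simp [hh] at ha)⟩]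
    simp
  obtain ⟨D, D1, D2, D3⟩ | hc : (∃ D : ℕ → Set ℕ, (∀ j, sg ((2 + 0) * s) (D j) ≤ 1) ∧
      (∃ᶠ j in atTop, D j = Ici M) ∧ ∀ y a, y ∈ AS T X x → (Orb f a fun n => T^[n] y) →
        ∀ᶠ j in atTop, a j ∈ D j) ∨ (AS T X x).Countable := by
    by_cases g : ∃ n, T^[n] x = 0
    · obtain ⟨n, hn⟩ := g
      refine .inl ⟨fun _ => Ici M, fun _ => hM.trans (by norm_num), .of_forall fun _ => rfl,
        fun y a hy ha => ?_⟩
      filter_upwards [eventually_ge_atTop n, hy.2.eventually_lt_const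
        (by positivity : (0 : ℝ) < 1 / (M + 2))] with j h1 h2
      obtain ⟨d, rfl⟩ := Nat.exists_eq_add_of_le' h1
      rw [Function.iterate_add_apply, hn, Function.iterate_fixed h.zero, zero_sub, abs_neg] at h2
      have := (((h.rng _ _ (ha (d + n + 1)).1).1.trans_eq (ha (d + n)).2.symm).trans
        (le_abs_self _)).trans_lt h2
      rw [one_div_lt_one_div (by positivity) (by positivity)] at this
      exact_mod_cast (by linarith : (M : ℝ) ≤ a (d + n))
    obtain ⟨c, hc⟩ := h.orb hx g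
    by_cases e : ∀ᶠ n in atTop, c n < M
    · exact .inr (h.ctb hc e)
    refine .inl ⟨fun j => if c j < M then {c j} else Ici M, fun j => ?_,
      (not_eventually.1 e).mono fun j hj => if_neg hj, fun y a hy ha => (h.evs M hc ha hy.2).mono fun j hj => ?_⟩
    · dsimp only
      split_ifs
      · rw [sg_one]
        exact ENNReal.ofReal_le_one.2 (Real.rpow_le_one_of_one_le_of_nonpos (by simp) (by linarith))
      · exact hM.trans (by norm_num)
    · dsimp only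
      split_ifs with e
      · exact (hj (.inl e)).symm
      · exact not_lt.1 fun e' => e (hj (.inr e') ▸ e')
  swap
  · simp [dimH_countable hc]
  refine ct_dim (by exact_mod_cast (by linarith : (0 : ℝ) < s)) (measure_mono_null (t := {y ∈ X | ∃ n, T^[n] y = 0} ∪ ⋃ m, ⋂ n,
    Wt f 0 1 n (fun j => if j < m then univ else D j) 1) (fun y hy => (em (∃ n, T^[n] y = 0)).imp (fun g => ⟨hy.1, g⟩)
      fun g => ?_) (measure_union_null (ct_cnt (by linarith) h.bad) (measure_iUnion_null fun m => ?_)))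
  · obtain ⟨a, ha⟩ := h.orb hy.1 g
    obtain ⟨m, hm⟩ := eventually_atTop.1 (D3 y a hy ha)
    exact mem_iUnion.2 ⟨m, mem_iInter.2 fun n => ⟨a, _, ha, rfl, fun j _ => by
      dsimp only; split_ifs with e; exacts [trivial, hm j (not_lt.1 e)], by simp⟩⟩
  let π := fun n => ∏ j ∈ Finset.range n, sg ((2 + 0) * s) (if j < m then univ else D j)
  have π1 : ∀ n, m ≤ n → π (n + 1) = π n * sg ((2 + 0) * s) (D n) := fun n hn => by
    simp only [π, Finset.prod_range_succ, if_neg (not_lt.2 hn)]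
  have π2 : Antitone fun n => π (n + m) := antitone_nat_of_succ_le fun n => by
    rw [add_right_comm, π1 _ (by omega)]; exact mul_le_of_le_one_right' (D1 _)
  have π3 : 2 * ⨅ n, π (n + m) ≤ ⨅ n, π (n + m) := le_iInf fun n => by
    obtain ⟨j, j1, j2⟩ := frequently_atTop.1 D2 (n + m)
    obtain ⟨d, rfl⟩ := Nat.exists_eq_add_of_le' (le_add_self.trans j1)
    refine (mul_le_mul_right (iInf_le _ (d + 1)) _).trans (le_trans ?_ (π2 (by omega : n ≤ d)))
    rw [add_right_comm, π1 _ (by omega), j2, mul_left_comm]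
    exact mul_le_of_le_one_right' ((mul_le_mul_right hM _).trans_eq (by simp [ENNReal.mul_inv_cancel]))
  have π4 : ⨅ n, π (n + m) ≠ ∞ := ne_top_of_le_ne_top (ENNReal.prod_ne_top fun j _ => sg_top p1 _) (iInf_le _ 0)
  have π5 : ⨅ n, π (n + m) = 0 := by
    rw [two_mul] at π3
    exact nonpos_iff_eq_zero.1 ((ENNReal.add_le_add_iff_left π4).1 (π3.trans_eq (add_zero _).symm))
  refine nonpos_iff_eq_zero.1 (π5 ▸ le_iInf fun n => (measure_mono (iInter_subset _ (n + m))).trans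
    ((h.cov (by linarith) one_pos.le _ _ one_pos).trans_eq (by simp [π])))

end Pool.Agent.H.MP_4648ce_an
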