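import Pool.Agent.H.MP_4648ce_an.A

set_option autoImplicit false
open Set Filter Topology MeasureTheory
open scoped ENNReal NNReal

namespace Pool.Agent.H.MP_4648ce_an

variable {T : ℝ → ℝ} {X : Set ℝ} {f : ℕ → ℝ → ℝ}

lemma Sys.low (h : Sys T X f) {x : ℝ} {c : ℕ → ℕ} (hx : Orb f c fun n => T^[n] x) {W l : ℕ → ℕ}
    (W0 : W 0 = 0) (Wm : Monotone W) (Wt : Tendsto W atTop atTop)
    (Wc : ∀ K, ∀ᶠ j in atTop, W j = W (j + 1) ∨ K ≤ c j ∧ W j + K ≤ W (j + 1))
    (hl : ∀ i, 4 ≤ l i ∧ (W i = W (i + 1) → (c i + 2) ^ 2 ≤ 2 ^ l i)) {s : ℝ≥0} (s0 : 0 < s) (s1 : s ≤ 1)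
    {C : ℝ} (hC : ∀ j, W j ≠ W (j + 1) →
      s * (∑ i ∈ Finset.range j, l i + W j + W (j + 1) : ℕ) ≤ W j + C) : s ≤ dimH (AS T X x) := by
  let F := fun (j : ℕ) (z : ℝ) => ⌊2 ^ W j * z⌋₊
  let w := fun j => W (j + 1) - W j
  have w1 : ∀ j, W (j + 1) = W j + w j := fun j => (Nat.add_sub_cancel' (Wm j.le_succ)).symm
  have F1 : ∀ j z, 0 ≤ z → F (j + 1) z / 2 ^ w j = F j z := fun j z hz => by
    simp only [F]
    rw [← Nat.floor_div_natCast, w1, pow_add]
    congr 1; push_cast; field_simp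
  let a := fun (z : ℝ) j => if W j = W (j + 1) then c j else 2 * (2 ^ w j + F (j + 1) z % 2 ^ w j)
  have fr : ∀ n, ∃ j ≥ n, W j ≠ W (j + 1) := fun n => by
    by_contra! hh
    obtain ⟨m, h1, h2⟩ := ((Wt.eventually_gt_atTop (W n)).and (eventually_ge_atTop n)).exists
    have : W m = W n := by
      induction m, h2 using Nat.le_induction with
      | base => rfl
      | succ m hm ih => rw [← hh m hm] at h1 ⊢; exact ih h1
    omega
  have : ∀ z, ∃ y ∈ X, Orb f (a z) fun n => T^[n] y := fun z => h.ex _ (frequently_atTop.2 fun n =>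
    (fr n).imp fun j hj => ⟨hj.1, by simp [a, hj.2]⟩)
  choose ψ p1 p2 using this
  have as : ∀ z, ψ z ∈ AS T X x := fun z => ⟨p1 z, by
    refine Metric.tendsto_atTop.2 fun ε e0 => ?_
    obtain ⟨K, hK⟩ := exists_nat_one_div_lt e0
    obtain ⟨m, hm⟩ := eventually_atTop.1 (Wc K)
    have : ∀ d n, m ≤ n → W (n + d) ≠ W (n + d + 1) → |T^[n] x - T^[n] (ψ z)| ≤ 1 / (K + 1) := fun d => by
      have k : ∀ n, m ≤ n → W n ≠ W (n + 1) → |T^[n] x - T^[n] (ψ z)| ≤ 1 / (K + 1) := fun n hn e => by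
        obtain ⟨k1, k2⟩ := (hm n hn).resolve_left e
        have b1 := (hx n).2.trans_le (h.rng _ _ (hx (n + 1)).1).2
        have b2 := (p2 z n).2.trans_le (h.rng _ _ (p2 z (n + 1)).1).2
        have : K ≤ a z n := by
          have := (Nat.lt_two_pow_self (n := w n)).le
          simp only [a, if_neg e]; rw [w1] at k2; omega
        have : (1 : ℝ) / (a z n + 1) ≤ 1 / (K + 1) := by gcongr
        have : (1 : ℝ) / (c n + 1) ≤ 1 / (K + 1) := by gcongr
        rw [abs_le]; constructor <;> linarith [(hx n).1.1, (p2 z n).1.1]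
      induction d with
      | zero => exact k
      | succ d ih =>
        intro n hn e
        by_cases e' : W n = W (n + 1)
        · have := h.hi' (c n) (hx (n + 1)).1 (p2 z (n + 1)).1
          rw [← (hx n).2, show c n = a z n by simp [a, e'], ← (p2 z n).2] at this
          exact this.trans (ih (n + 1) (by omega) (by rwa [add_right_comm n 1]))
        · exact k n hn e'
    refine ⟨m, fun n hn => ?_⟩
    obtain ⟨j, j1, j2⟩ := fr n
    simpa using (this (j - n) n hn (by rwa [Nat.add_sub_cancel' j1])).trans_lt hK⟩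
  have key : ∀ z ∈ Ico (0 : ℝ) 1, ∀ z' ∈ Ico (0 : ℝ) 1, z < z' →
      z' - z ≤ 32 * 2 ^ C * |ψ z - ψ z'| ^ (s : ℝ) := fun z hz z' hz' zz => by
    have ex : ∃ j, F (j + 1) z ≠ F (j + 1) z' := by
      obtain ⟨k, hk⟩ := pow_unbounded_of_one_lt (1 / (z' - z)) one_lt_two
      obtain ⟨j, hj⟩ := ((Wt.comp (tendsto_add_atTop_nat 1)).eventually_ge_atTop k).exists
      refine ⟨j, fun e => ?_⟩
      have := hk.trans_le (pow_le_pow_right₀ one_le_two hj)
      rw [div_lt_iff₀ (by linarith)] at this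
      have b1 := Nat.lt_floor_add_one (2 ^ W (j + 1) * z')
      have b2 := Nat.floor_le (a := 2 ^ W (j + 1) * z) (by have := hz.1; positivity)
      simp only [F] at e
      rw [e] at b2
      simp only [Function.comp] at this
      linarith
    obtain ⟨j, j1, j2⟩ : ∃ j, F (j + 1) z ≠ F (j + 1) z' ∧ ∀ i ≤ j, F i z = F i z' :=
      ⟨Nat.find ex, Nat.find_spec ex, by
        rintro (_ | i) hi
        · simp [F, W0, Nat.floor_eq_zero.2 hz.2, Nat.floor_eq_zero.2 hz'.2]
        · exact not_not.1 (Nat.find_min ex hi)⟩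
    have jw : W j ≠ W (j + 1) := fun e => j1 (by simpa only [F, e] using j2 j le_rfl)
    have back : ∀ i ≤ j, |T^[i] (ψ z) - T^[i] (ψ z')| ≤
        2 ^ (∑ k ∈ Finset.range i, l k + 2 * W i) * |ψ z - ψ z'| := fun i hi => by
      induction i with
      | zero => simp [W0]
      | succ i ih =>
        have e : a z' i = a z i := by simp only [a, j2 _ hi]
        have := h.lo (a z i) _ (p2 z (i + 1)).1 _ (p2 z' (i + 1)).1
        rw [← (p2 z i).2, ← e, ← (p2 z' i).2, e] at this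
        have b : (a z i + 2) ^ 2 ≤ 2 ^ (l i + 2 * w i) := by
          simp only [a]
          split_ifs with e
          · exact ((hl i).2 e).trans (Nat.pow_le_pow_right two_pos (by omega))
          · have := Nat.mod_lt (F (i + 1) z) (Nat.two_pow_pos (w i))
            calc _ ≤ (4 * 2 ^ w i) ^ 2 := Nat.pow_le_pow_left (by omega) 2
              _ = 2 ^ (4 + 2 * w i) := by ring
              _ ≤ _ := Nat.pow_le_pow_right two_pos (by have := (hl i).1; omega)
        refine this.trans ((mul_le_mul (show _ ≤ (2 : ℝ) ^ (l i + 2 * w i) by exact_mod_cast b) (ih (by omega)) (abs_nonneg _)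
          (by positivity)).trans_eq ?_)
        rw [Finset.sum_range_succ, w1 i]; push_cast; ring
    obtain ⟨Δ, hΔ⟩ := Nat.exists_eq_add_of_lt (j1.lt_of_le (Nat.floor_le_floor (by gcongr)))
    have m1 := Nat.div_add_mod (F (j + 1) z) (2 ^ w j)
    have m2 := Nat.div_add_mod (F (j + 1) z') (2 ^ w j)
    have m3 := Nat.mod_lt (F (j + 1) z') (Nat.two_pow_pos (w j))
    rw [F1 _ _ hz.1, j2 j le_rfl] at m1
    rw [F1 _ _ hz'.1] at m2
    have b1 := (h.rng _ _ (p2 z (j + 1)).1).1.trans_eq (p2 z j).2.symm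
    have b2 := (p2 z' j).2.trans_le (h.rng _ _ (p2 z' (j + 1)).1).2
    have e1 : a z' j = a z j + 2 * Δ + 2 := by simp only [a, if_neg jw]; omega
    have e2 : a z' j + 1 ≤ 4 * 2 ^ w j := by simp only [a, if_neg jw]; omega
    have e3 : Δ + 1 ≤ 2 ^ w j := by omega
    rw [e1] at b2 e2
    have c1 := Nat.lt_floor_add_one (2 ^ W (j + 1) * z')
    have c2 := Nat.floor_le (a := 2 ^ W (j + 1) * z) (by have := hz.1; positivity)
    change _ < (F (j + 1) z' : ℝ) + 1 at c1
    change (F (j + 1) z : ℝ) ≤ _ at c2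
    rw [hΔ] at c1
    have b3 := (le_abs_self _).trans (back j le_rfl)
    have hc := hC j jw
    rw [w1] at c1 c2 hc
    replace e2 : (a z j : ℝ) + 2 * Δ + 2 + 1 ≤ 4 * 2 ^ w j := by exact_mod_cast e2
    replace e3 : (Δ : ℝ) + 1 ≤ 2 ^ w j := by exact_mod_cast e3
    generalize ∑ k ∈ Finset.range j, l k = L at *
    generalize |ψ z - ψ z'| = d at *
    push_cast at b2 c1 hc
    have a0 : (0 : ℝ) ≤ a z j := Nat.cast_nonneg _
    have D0 : (0 : ℝ) ≤ Δ := Nat.cast_nonneg _
    generalize (a z j : ℝ) = A at *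
    have t1 : (Δ + 1) / 2 ^ w j ≤ (2 : ℝ) ^ ((4 + L + W j + (W j + w j) : ℕ) : ℝ) * d := by
      have : (Δ + 1) / (16 * (2 ^ w j) ^ 2) ≤ 1 / (A + 2) - 1 / (A + 2 * Δ + 2 + 1) := by
        rw [div_sub_div _ _ (by positivity) (by positivity)]
        exact div_le_div₀ (by linarith) (by linarith) (by positivity) (by nlinarith)
      rw [div_le_iff₀ (by positivity)] at this ⊢
      rw [Real.rpow_natCast]
      refine this.trans ((mul_le_mul_of_nonneg_right (by linarith : _ ≤ 2 ^ (L + 2 * W j) * d)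
        (by positivity)).trans_eq (by ring))
    have t0 : (0 : ℝ) < (Δ + 1) / 2 ^ w j := by positivity
    have t2 : (Δ + 1) / 2 ^ w j ≤ ((Δ + 1) / 2 ^ w j : ℝ) ^ (s : ℝ) :=
      Real.self_le_rpow_of_le_one t0.le ((div_le_one (by positivity)).2 e3) s1
    have d0 : 0 ≤ d := (pos_of_mul_pos_right (t0.trans_le t1) (by positivity)).le
    have t3 := t2.trans (Real.rpow_le_rpow t0.le t1 s.2)
    rw [Real.mul_rpow (by positivity) d0, ← Real.rpow_mul two_pos.le] at t3
    have t4 : (2 : ℝ) ^ (((4 + L + W j + (W j + w j) : ℕ) : ℝ) * s) ≤ 2 ^ ((4 + W j : ℕ) + C) :=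
      Real.rpow_le_rpow_of_exponent_le one_le_two (by
        have : (s : ℝ) ≤ 1 := s1
        push_cast; linarith)
    rw [Real.rpow_add two_pos, Real.rpow_natCast] at t4
    have t5 := t3.trans (mul_le_mul_of_nonneg_right t4 (by positivity))
    rw [div_le_iff₀ (by positivity)] at t5
    refine le_of_mul_le_mul_left ?_ (by positivity : (0 : ℝ) < 2 ^ (W j + w j))
    calc _ ≤ 2 * (Δ + 1 : ℝ) := by linarith
      _ ≤ _ := (mul_le_mul_of_nonneg_left t5 two_pos.le).trans_eq (by ring)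
  have key' : ∀ z ∈ Ico (0 : ℝ) 1, ∀ z' ∈ Ico (0 : ℝ) 1,
      |z - z'| ≤ 32 * 2 ^ C * |ψ z - ψ z'| ^ (s : ℝ) := fun z hz z' hz' => by
    rcases lt_trichotomy z z' with l | rfl | l
    · rw [abs_sub_comm, abs_of_pos (sub_pos.2 l)]; exact key z hz z' hz' l
    · simp; positivity
    · rw [abs_of_pos (sub_pos.2 l), abs_sub_comm]; exact key z' hz' z hz l
  have inj : InjOn ψ (Ico 0 1) := fun z hz z' hz' e => by
    simpa [e, s0.ne', sub_eq_zero] using key' z hz z' hz'
  have H : HolderOnWith (32 * 2 ^ C : ℝ).toNNReal s (Function.invFunOn ψ (Ico 0 1)) (ψ '' Ico 0 1) := by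
    rintro _ ⟨z, hz, rfl⟩ _ ⟨z', hz', rfl⟩
    rw [inj.leftInvOn_invFunOn hz, inj.leftInvOn_invFunOn hz', edist_dist, edist_dist,
      ENNReal.ofReal_rpow_of_nonneg dist_nonneg s.coe_nonneg]
    exact (ENNReal.ofReal_le_ofReal (key' z hz z' hz')).trans_eq (ENNReal.ofReal_mul (by positivity))
  have := H.dimH_image_le s0
  rw [inj.invFunOn_image subset_rfl, Real.dimH_of_nonempty_interior (by simp),
    ENNReal.le_div_iff_mul_le (by simp [s0.ne']) (by simp)] at this
  exact le_trans (by simp) (this.trans (dimH_mono (image_subset_iff.2 fun z _ => as z)))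

noncomputable def U (b : ℝ) : ℕ → ℕ
  | 0 => 1
  | j + 1 => if U b j = j then ⌈b * j⌉₊ else U b j

lemma U_ge {b : ℝ} (hb : 1 < b) (j : ℕ) : j ≤ U b j ∧ 1 ≤ U b j := by
  induction j with
  | zero => simp [U]
  | succ j ih =>
    rw [U]
    split_ifs with e
    · have : j < ⌈b * j⌉₊ := Nat.lt_ceil.2 (lt_mul_of_one_lt_left (by exact_mod_cast e ▸ ih.2) hb)
      omega
    · omega

lemma U_fr {b : ℝ} (hb : 1 < b) (n : ℕ) : ∃ j ≥ n, U b j = j := by
  by_contra! hh
  have : ∀ m ≥ n, U b m = U b n := fun m hm => by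
    induction m, hm using Nat.le_induction with
    | base => rfl
    | succ m hm ih => rw [U, if_neg (hh m hm), ih]
  exact hh _ (U_ge hb n).1 (this _ (U_ge hb n).1)

lemma U_mul {b : ℝ} {j : ℕ} (e : U b j = j) : b * U b j ≤ U b (j + 1) := by
  rw [U, if_pos e, e]; exact Nat.le_ceil _

lemma U_mono {b : ℝ} (hb : 1 < b) : Monotone (U b) := monotone_nat_of_le_succ fun j => by
  by_cases e : U b j = j
  · have := (U_ge hb (j + 1)).1; omega
  · rw [U, if_neg e]

lemma grow {b β : ℝ} (h1 : 1 < β) (hb : β < b) (Φ : ℕ → ℝ) (m : ℕ)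
    (hf : ∀ n ≥ m, U b n ≠ n → Φ (n + 1) = Φ n)
    (hs : ∀ n ≥ m, U b n = n → Φ (n + 1) ≤ β * Φ n ∧ n / 2 ≤ (β - 1) * Φ n) : False := by
  have b1 := h1.trans hb
  have u : ∀ n, (1 : ℝ) ≤ U b n := fun n => by exact_mod_cast (U_ge b1 n).2
  have st : ∀ c, 0 ≤ c → ∀ n ≥ m, U b n = n → Φ n ≤ c * U b n → Φ (n + 1) ≤ c * (β / b) * U b (n + 1) :=
    fun c c0 n hn e k => calc
      _ ≤ β * (c * U b n) := (hs n hn e).1.trans (by gcongr)
      _ = c * (β / b) * (b * U b n) := by field_simp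
      _ ≤ _ := by gcongr; exact U_mul e
  have q1 : β / b < 1 := (div_lt_one (by linarith)).2 hb
  have q0 : 0 < β / b := by positivity
  have iv : ∀ c, 0 ≤ c → ∀ k ≥ m, Φ k ≤ c * U b k → ∀ n ≥ k, Φ n ≤ c * U b n := fun c c0 k hk h0 n hn => by
    induction n, hn using Nat.le_induction with
    | base => exact h0
    | succ n hn ih =>
      by_cases e : U b n = n
      · exact (st c c0 n (hk.trans hn) e ih).trans (by have := u (n + 1); gcongr; nlinarith)
      · rwa [hf n (hk.trans hn) e, U, if_neg e]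
  have : ∀ i : ℕ, ∃ k ≥ m, Φ k ≤ |Φ m| * (β / b) ^ i * U b k := fun i => by
    induction i with
    | zero => exact ⟨m, le_rfl, by nlinarith [le_abs_self (Φ m), abs_nonneg (Φ m), u m]⟩
    | succ i ih =>
      obtain ⟨k, k1, k2⟩ := ih
      obtain ⟨j, j1, j2⟩ := U_fr b1 k
      exact ⟨j + 1, by omega, by
        rw [pow_succ, ← mul_assoc]
        exact st _ (by positivity) j (le_trans k1 j1) j2 (iv _ (by positivity) k k1 k2 j j1)⟩
  obtain ⟨i, hi⟩ := exists_pow_lt_of_lt_one (by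
    have := sub_pos.2 h1; positivity : 0 < 1 / (2 * (β - 1) * (|Φ m| + 1))) q1
  obtain ⟨k, k1, k2⟩ := this i
  obtain ⟨j, j1, j2⟩ := U_fr b1 k
  have a1 := iv _ (by positivity) k k1 k2 j j1
  have a2 := (hs j (le_trans k1 j1) j2).2
  have a3 := u j
  rw [j2] at a1 a3
  rw [lt_div_iff₀ (by have := sub_pos.2 h1; positivity)] at hi
  have := mul_le_mul_of_nonneg_left a1 (sub_pos.2 h1).le
  have : 0 < (β / b) ^ i * (β - 1) := mul_pos (by positivity) (sub_pos.2 h1)
  nlinarith

lemma Sys.up (h : Sys T X f) {b β : ℝ} (h1 : 1 < β) (hb : β < b) {x : ℝ} {c : ℕ → ℕ}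
    (hx : Orb f c fun n => T^[n] x) (hc : ∀ j, U b j ≠ j → c j = 1) {s : ℝ≥0} (hs : 1 < (β + 1) * s) :
    dimH (AS T X x) ≤ s := by
  have b1 := h1.trans hb
  have s0 : (0 : ℝ) < s := pos_of_mul_pos_right (one_pos.trans hs) (by linarith)
  have p1 : (1 : ℝ) < (2 + (β - 1)) * s := by linarith
  let D := fun m j : ℕ => if j < m ∨ U b j = j then univ else ({1} : Set ℕ)
  let E := fun m n : ℕ => ⋃ _ : U b n = n, Wt f (β - 1) (2 ^ (β * n)) n (D m) 1
  refine ct_dim s0 (measure_mono_null (t := {y ∈ X | ∃ n, T^[n] y = 0} ∪ ⋃ m, limsup (E m) atTop)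
    (fun y hy => (em (∃ n, T^[n] y = 0)).imp (fun g => ⟨hy.1, g⟩) fun g => ?_)
    (measure_union_null (ct_cnt s0 h.bad) (measure_iUnion_null fun m => measure_limsup_atTop_eq_zero ?_)))
  · obtain ⟨a, ha⟩ := h.orb hy.1 g
    obtain ⟨m, hm⟩ := eventually_atTop.1 (h.evs 2 hx ha hy.2)
    have hm' : ∀ j ≥ m, U b j ≠ j → a j = 1 := fun j hj e => by
      rw [← hm j hj (.inl (by rw [hc j e]; norm_num)), hc j e]
    refine mem_iUnion.2 ⟨m, mem_limsup_iff_frequently_mem.2 (by_contra fun hh => ?_)⟩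
    obtain ⟨k, hk⟩ := eventually_atTop.1 ((not_frequently.1 hh).and (eventually_ge_atTop m))
    have l2 := Real.log_two_gt_d9
    have P0 : ∀ n, (1 : ℝ) ≤ ∏ j ∈ Finset.range n, (a j + 1 : ℝ) := fun n =>
      Finset.one_le_prod fun j _ => by simp
    refine grow h1 hb (fun n => Real.log (∏ j ∈ Finset.range n, (a j + 1 : ℝ)) - n * Real.log 2) k
      (fun n hn e => ?_) fun n hn e => ?_
    · rw [Finset.prod_range_succ, Real.log_mul (by linarith [P0 n]) (by positivity), hm' n (hk n hn).2 e]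
      norm_num; ring
    have : (a n + 1) * 2 ^ (β * n) < (1 * ∏ j ∈ Finset.range n, (a j + 1 : ℝ)) ^ (β - 1) :=
      not_le.1 fun k => (hk n hn).1 (mem_iUnion.2 ⟨e, a, _, ha, rfl, fun j _ => by
        simp only [D]; split_ifs with e; exacts [trivial, hm' j (by omega) (by tauto)], k⟩)
    have := Real.log_lt_log (by positivity) this
    rw [one_mul, Real.log_mul (by positivity) (by positivity), Real.log_rpow two_pos,
      Real.log_rpow (by linarith [P0 n])] at this
    have a0 : 0 ≤ Real.log (a n + 1) := Real.log_nonneg (by simp)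
    have n0 : (0 : ℝ) ≤ n := n.cast_nonneg
    rw [Finset.prod_range_succ, Real.log_mul (by linarith [P0 n]) (by positivity)]
    push_cast
    constructor <;> nlinarith
  obtain ⟨q, hq⟩ : ∃ q : ℝ, q = 2 ^ (-((2 + (β - 1)) * s)) := ⟨_, rfl⟩
  have q0 : 0 < q := by rw [hq]; positivity
  obtain ⟨r, hr⟩ := pow_unbounded_of_one_lt ((sg ((2 + (β - 1)) * s) univ).toReal / q) b1
  have r1 : 1 ≤ b ^ r := one_le_pow₀ b1.le
  rw [div_lt_iff₀ q0] at hr
  have hZ := ENNReal.le_ofReal_iff_toReal_le (sg_top p1 univ) (by positivity) |>.2 hr.le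
  have π : ∀ n, ∏ j ∈ Finset.range n, sg ((2 + (β - 1)) * s) (D m j) ≤
      .ofReal (q ^ n * (b ^ r) ^ min n m * U b n ^ r) := fun n => by
    induction n with
    | zero => simp [U]
    | succ n ih =>
      have um : (U b n : ℝ) ≤ U b (n + 1) := by exact_mod_cast U_mono b1 n.le_succ
      rw [Finset.prod_range_succ]
      simp only [D] at ih ⊢
      split_ifs with e
      · refine (mul_le_mul' ih hZ).trans ?_
        rw [← ENNReal.ofReal_mul (by positivity)]
        refine ENNReal.ofReal_le_ofReal ?_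
        rcases e with e | e
        · rw [min_eq_left e.le, min_eq_left (by omega)]
          calc _ = q ^ (n + 1) * (b ^ r) ^ (n + 1) * U b n ^ r := by ring
            _ ≤ _ := by gcongr
        · calc _ = q ^ (n + 1) * (b ^ r) ^ min n m * (b * U b n) ^ r := by ring
            _ ≤ _ := by gcongr; exacts [by omega, U_mul e]
      · rw [sg_one, Nat.cast_one, one_add_one_eq_two, ← hq]
        refine (mul_le_mul_left ih _).trans ?_
        rw [← ENNReal.ofReal_mul (by positivity)]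
        refine ENNReal.ofReal_le_ofReal ?_
        calc _ = q ^ (n + 1) * (b ^ r) ^ min n m * U b n ^ r := by ring
          _ ≤ _ := by gcongr; omega
  have ρ1 : ‖(2 : ℝ) ^ (-s : ℝ)‖ < 1 := by
    rw [Real.norm_of_nonneg (by positivity)]; exact Real.rpow_lt_one_of_one_lt_of_neg one_lt_two (by linarith)
  refine ne_top_of_le_ne_top ((summable_pow_mul_geometric_of_norm_lt_one r ρ1).mul_left
    ((b ^ r) ^ m)).tsum_ofReal_ne_top (ENNReal.tsum_le_tsum fun n => ?_)
  by_cases e : U b n = n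
  · simp only [E, e, iUnion_true]
    refine (h.cov s0 (by positivity) n _ one_pos).trans ((mul_le_mul_right (π n) _).trans ?_)
    rw [← ENNReal.ofReal_mul (by positivity), e, Real.one_rpow, div_one]
    refine ENNReal.ofReal_le_ofReal ?_
    have : ((2 : ℝ) ^ (β * n)) ^ (s : ℝ) * q ^ n = (2 ^ (-s : ℝ)) ^ n := by
      rw [hq, ← Real.rpow_mul two_pos.le, ← Real.rpow_mul_natCast two_pos.le,
        ← Real.rpow_mul_natCast two_pos.le, ← Real.rpow_add two_pos]
      congr 1; ring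
    calc _ = (b ^ r) ^ min n m * (n ^ r * ((2 ^ (β * n)) ^ (s : ℝ) * q ^ n)) := by ring
      _ ≤ _ := by rw [this]; gcongr; omega
  · simp [E, e]

end Pool.Agent.H.MP_4648ce_an
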