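import Pool.Agent.H.MP_4648ce_an.B

set_option autoImplicit false
open Set Filter Topology MeasureTheory
open scoped ENNReal NNReal

namespace Pool.Agent.H.MP_4648ce_an

variable {T : ℝ → ℝ} {X : Set ℝ} {f : ℕ → ℝ → ℝ}

lemma Sys.mid (h : Sys T X f) {α : ℝ≥0} (a0 : 0 < α) (a1 : (α : ℝ) < 1 / 2) :
    ∃ x ∈ X, dimH (AS T X x) = α := by
  have a0' : (0 : ℝ) < α := a0
  obtain ⟨b, hb⟩ : ∃ b : ℝ, (b + 1) * α = 1 := ⟨1 / α - 1, by field_simp; ring⟩
  have b1 : 1 < b := by nlinarith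
  obtain ⟨x, x1, hx⟩ := h.ex (fun j => if U b j = j then j + 1 else 1) (.of_forall fun j => by
    split_ifs <;> simp)
  refine ⟨x, x1, le_antisymm (le_of_forall_gt_imp_ge_of_dense fun s hs => ?_)
    (ENNReal.le_of_forall_nnreal_lt fun s hs => ?_)⟩
  · rcases eq_or_ne s ∞ with rfl | st
    · exact le_top
    lift s to ℝ≥0 using st
    have hs' : (α : ℝ) < s := by exact_mod_cast hs
    obtain ⟨β, h1, h2⟩ := exists_between (max_lt b1 (show 1 / (s : ℝ) - 1 < b by
      rw [sub_lt_iff_lt_add, div_lt_iff₀ (by linarith)]; nlinarith))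
    rw [max_lt_iff, sub_lt_iff_lt_add, div_lt_iff₀ (by linarith)] at h1
    exact h.up h1.1 h2 hx (fun j hj => if_neg hj) h1.2
  rcases eq_or_ne s 0 with rfl | s0
  · simp
  have hs' : (s : ℝ) < α := by exact_mod_cast hs
  have s0' : (0 : ℝ) ≤ s := s.2
  obtain ⟨A, hA⟩ := exists_nat_gt (4 / (1 - (b + 1) * s))
  have d : 0 < 1 - (b + 1) * s := by nlinarith
  have A0 : 0 < A := by exact_mod_cast (div_pos four_pos d).trans hA
  rw [div_lt_iff₀ d] at hA
  have fe : ∀ j, A * (U b j - 1) ≠ A * (U b (j + 1) - 1) → U b j = j := fun j e => by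
    by_contra hh; rw [U, if_neg hh] at e; exact e rfl
  refine h.low hx (W := fun j => A * (U b j - 1)) (l := fun _ => 4) (by simp [U])
    (fun i j e => Nat.mul_le_mul_left _ (Nat.sub_le_sub_right (U_mono b1 e) 1))
    (tendsto_atTop.2 fun n => (eventually_ge_atTop (n + 1)).mono fun j hj => by
      have := (U_ge b1 j).1
      exact le_trans (by omega) (Nat.le_mul_of_pos_left _ A0)) (fun K => ?_) (fun i => ⟨le_rfl, fun e => ?_⟩)
    (pos_iff_ne_zero.2 s0) (by exact_mod_cast (by linarith : (s : ℝ) ≤ 1)) (C := A) fun j e => ?_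
  · filter_upwards [eventually_ge_atTop K, (tendsto_natCast_atTop_atTop.const_mul_atTop
      (sub_pos.2 b1)).eventually_ge_atTop K] with j h1 h2
    by_cases e : U b j = j
    · have := U_mul e
      have := (U_ge b1 j).2
      rw [e] at *
      have : j + K ≤ U b (j + 1) := by exact_mod_cast (by linarith : (j + K : ℝ) ≤ U b (j + 1))
      refine .inr ⟨by simp; omega, le_trans ?_ (Nat.mul_le_mul_left A (by omega : j - 1 + K ≤ _))⟩
      rw [mul_add]; exact Nat.add_le_add_left (Nat.le_mul_of_pos_left _ A0) _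
    · exact .inl (by rw [U, if_neg e])
  · rw [if_neg]
    · norm_num
    intro e'
    have := (U_ge b1 (i + 1)).1
    have := (U_ge b1 i).2
    have := Nat.eq_of_mul_eq_mul_left A0 e
    omega
  · have e1 := fe j e
    have e2 := (U_ge b1 j).2
    have e3 := (U_ge b1 (j + 1)).2
    have e4 : (U b (j + 1) : ℝ) < b * j + 1 := by
      rw [U, if_pos e1]; exact Nat.ceil_lt_add_one (by positivity)
    rw [e1] at e2 ⊢
    simp only [Finset.sum_const, Finset.card_range, smul_eq_mul]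
    push_cast [e2, e3]
    have j0 : (0 : ℝ) ≤ j := j.cast_nonneg
    have A1 : (0 : ℝ) ≤ A := A.cast_nonneg
    have : (s : ℝ) * (A * (U b (j + 1) - 1)) ≤ s * (A * (b * j)) := by gcongr; linarith
    have : (s : ℝ) * j ≤ j := mul_le_of_le_one_left j0 (by linarith)
    nlinarith [mul_le_mul_of_nonneg_left hA.le j0, mul_nonneg s0' A1]

lemma Sys.top (h : Sys T X f) {x : ℝ} (x1 : x ∈ X) {c : ℕ → ℕ} (hx : Orb f c fun n => T^[n] x)
    (h1 : ∀ᶠ n in atTop, c n < 2 ^ n) (h2 : ∀ M, ∀ᶠ k in atTop, ∃ j < k + 1, M ≤ c (k ^ 2 + j)) :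
    dimH (AS T X x) = 1 / 2 := by
  classical
  refine (h.half x1).antisymm (ENNReal.le_of_forall_nnreal_lt fun s hs => ?_)
  rcases eq_or_ne s 0 with rfl | s0
  · simp
  have s1 : (s : ℝ) < 1 / 2 := by
    rw [← ENNReal.ofReal_lt_ofReal_iff (by norm_num)]
    simpa [ENNReal.ofReal_inv_of_pos] using hs
  obtain ⟨B, hB⟩ : ∃ B, ∀ n, c n + 2 ≤ 2 ^ (n + B) := by
    obtain ⟨m, hm⟩ := eventually_atTop.1 h1
    refine ⟨∑ i ∈ Finset.range m, c i + 2, fun n => ?_⟩
    by_cases e : n < m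
    · have := Finset.single_le_sum (f := c) (fun _ _ => Nat.zero_le _) (Finset.mem_range.2 e)
      exact le_trans (by omega) Nat.lt_two_pow_self.le
    · have := hm n (not_lt.1 e)
      have := Nat.two_pow_pos n
      calc _ ≤ 2 ^ (n + 2) := by rw [pow_add]; omega
        _ ≤ _ := Nat.pow_le_pow_right two_pos (by omega)
  choose g g1 g2 using fun k => Finset.exists_max_image (Finset.range (k + 1)) (fun j => c (k ^ 2 + j))
    (by simp)
  simp only [Finset.mem_range] at g1 g2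
  let p := fun j => ∃ k, k ^ 2 + g k = j
  have gm : StrictMono fun k => k ^ 2 + g k := strictMono_nat_of_lt_succ fun k => by
    have := g1 k; nlinarith
  have ck : ∀ k, k ≤ Nat.count p (k ^ 2 + g k) := fun k => by
    rw [Nat.count_eq_card_filter_range]
    simpa using Finset.card_le_card_of_injOn (s := Finset.range k) _ (fun i hi =>
      Finset.mem_coe.2 (Finset.mem_filter.2 ⟨Finset.mem_range.2 (gm (by simpa using hi)), i, rfl⟩))
      gm.injective.injOn
  have ct : Tendsto (Nat.count p) atTop atTop := tendsto_atTop.2 fun k =>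
    (eventually_ge_atTop _).mono fun j hj => (ck k).trans (Nat.count_monotone p hj)
  obtain ⟨K, hK⟩ := exists_nat_gt (16 * (2 * B + 11) / (1 - 2 * s) : ℝ)
  refine h.low hx (W := fun j => Nat.count p j ^ 5) (l := fun i => 2 * i + (2 * B + 4)) (by simp)
    (fun i j e => Nat.pow_le_pow_left (Nat.count_monotone p e) 5)
    (tendsto_atTop_mono (fun j => Nat.le_self_pow (by simp) _) ct) (fun M => ?_)
    (fun i => ⟨by omega, fun _ => (Nat.pow_le_pow_left (hB i) 2).trans (by
      rw [← pow_mul]; exact Nat.pow_le_pow_right two_pos (by omega))⟩)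
    (pos_iff_ne_zero.2 s0) (by exact_mod_cast (by linarith : (s : ℝ) ≤ 1))
    (C := (2 * B + 11) * (K + 1) ^ 4) fun j e => ?_
  · obtain ⟨m, hm⟩ := eventually_atTop.1 (h2 M)
    filter_upwards [eventually_ge_atTop (m ^ 2 + g m), ct.eventually_ge_atTop M] with j h1 h3
    rw [Nat.count_succ]
    split_ifs with e
    · obtain ⟨k, rfl⟩ := e
      obtain ⟨i, i1, i2⟩ := hm k (gm.le_iff_le.1 h1)
      refine .inr ⟨i2.trans (g2 k i i1), ?_⟩
      generalize Nat.count p _ = n at *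
      calc _ ≤ n ^ 5 + 5 * n := by omega
        _ ≤ _ := by ring_nf; omega
    · exact .inl rfl
  · rw [Nat.count_succ] at e ⊢
    have pj : p j := by by_contra hh; simp [hh] at e
    rw [if_pos pj]
    obtain ⟨k, rfl⟩ := pj
    have a1 := ck k
    have a2 := g1 k
    generalize Nat.count p _ = n at *
    have a3 : k ^ 2 + g k ≤ (n + 1) ^ 2 := by nlinarith
    generalize k ^ 2 + g k = j at *
    have a4 : ∑ i ∈ Finset.range j, (2 * i + (2 * B + 4)) + n ^ 5 + (n + 1) ^ 5 ≤
        2 * n ^ 5 + (2 * B + 11) * (n + 1) ^ 4 := by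
      have := Finset.sum_le_card_nsmul (Finset.range j) (fun i => 2 * i + (2 * B + 4))
        ((2 * B + 6) * (n + 1) ^ 2) fun i hi => by
          have := Finset.mem_range.1 hi
          have : 1 ≤ (n + 1) ^ 2 := Nat.one_le_pow _ _ n.succ_pos
          nlinarith
      rw [Finset.card_range, smul_eq_mul] at this
      have := this.trans (Nat.mul_le_mul_right _ a3)
      have : (n + 1) ^ 5 ≤ n ^ 5 + 5 * (n + 1) ^ 4 := by ring_nf; omega
      nlinarith
    have s0' : (0 : ℝ) ≤ s := s.2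
    refine (mul_le_mul_of_nonneg_left (Nat.cast_le.2 a4) s0').trans ?_
    push_cast
    have n0 : (0 : ℝ) ≤ n := n.cast_nonneg
    have a5 : (s : ℝ) * ((2 * B + 11) * (n + 1) ^ 4) ≤ (2 * B + 11) * (n + 1) ^ 4 :=
      mul_le_of_le_one_left (by positivity) (by linarith)
    have a6 : 0 ≤ (1 - 2 * s : ℝ) * n ^ 5 := mul_nonneg (by linarith) (by positivity)
    by_cases c : n ≤ K
    · have : (2 * B + 11 : ℝ) * (n + 1) ^ 4 ≤ (2 * B + 11) * (K + 1) ^ 4 := by gcongr
      linarith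
    · have c' : (K : ℝ) + 1 ≤ n := by exact_mod_cast not_le.1 c
      rw [div_lt_iff₀ (by linarith)] at hK
      have K0 : (0 : ℝ) ≤ K := K.cast_nonneg
      have : (2 * B + 11 : ℝ) * (n + 1) ^ 4 ≤ (2 * B + 11) * (2 * n) ^ 4 := by gcongr; linarith
      have : 16 * (2 * B + 11 : ℝ) * n ^ 4 ≤ n * (1 - 2 * s) * n ^ 4 :=
        mul_le_mul_of_nonneg_right (hK.le.trans (mul_le_mul_of_nonneg_right (by linarith) (by linarith)))
          (by positivity)
      have : (0 : ℝ) ≤ (2 * B + 11) * (K + 1) ^ 4 := by positivity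
      nlinarith

lemma Sys.image (h : Sys T X f) : (fun x => dimH (AS T X x)) '' X = Icc 0 (1 / 2) := by
  refine subset_antisymm (image_subset_iff.2 fun x hx => ⟨zero_le, h.half hx⟩) fun α hα => ?_
  rcases hα.2.eq_or_lt with rfl | l
  · obtain ⟨x, x1, hx⟩ := h.ex id (eventually_ne_atTop 0).frequently
    exact ⟨x, x1, h.top x1 hx (.of_forall fun _ => Nat.lt_two_pow_self) fun M =>
      (eventually_ge_atTop M).mono fun k hk => ⟨0, by simp, hk.trans (by simp only [id]; nlinarith)⟩⟩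
  lift α to ℝ≥0 using l.ne_top
  rcases eq_or_ne α 0 with rfl | a0
  · obtain ⟨x, x1, hx⟩ := h.ex (fun _ => 1) (.of_forall fun _ => one_ne_zero)
    exact ⟨x, x1, dimH_countable (h.ctb hx (M := 2) (by simp))⟩
  · refine h.mid (pos_iff_ne_zero.2 a0) ?_
    rw [← ENNReal.ofReal_lt_ofReal_iff (by norm_num)]
    simpa [ENNReal.ofReal_inv_of_pos] using l

lemma Sys.full (h : Sys T X f) (ν : Measure ℝ) (n1 : ν ≤ volume) (n2 : ν X ≠ 0)
    (n3 : ∀ E ⊆ Icc 0 1, MeasurableSet E → ∀ M : ℕ,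
      ∑ a ∈ Finset.range M, ν (f a '' E) ≤ .ofReal (1 - 1 / (M + 1)) * ν E) :
    dimH {x ∈ X | dimH (AS T X x) = 1 / 2} = 1 := by
  have n4 : ∀ E ⊆ Icc 0 1, ∀ M : ℕ,
      ∑ a ∈ Finset.range M, ν (f a '' E) ≤ .ofReal (1 - 1 / (M + 1)) * ν E := fun E hE M =>
    (Finset.sum_le_sum fun a _ => measure_mono (image_mono (subset_inter (subset_toMeasurable ν E)
      hE))).trans ((n3 _ inter_subset_right ((measurableSet_toMeasurable _ _).inter measurableSet_Icc)
        M).trans (mul_le_mul_right ((measure_mono inter_subset_left).trans_eq (measure_toMeasurable E)) _))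
  let S := fun (n : ℕ) (P : (ℕ → ℕ) → Prop) => {p | ∃ a y, Orb f a y ∧ y 0 = p ∧ P fun j => a (j + n)}
  have Ss : ∀ n P, S n P ⊆ Icc 0 1 := by rintro n P _ ⟨a, y, h1, rfl, -⟩; exact (h1 0).1
  have S1 : ∀ n P, ν (S n P) ≤ ν (S 0 P) := fun n P => by
    induction n with
    | zero => rfl
    | succ n ih =>
      refine (measure_mono (t := ⋃ b, f b '' S n P) ?_).trans ((measure_iUnion_le _).trans (le_trans ?_ ih))
      · rintro _ ⟨a, y, h1, rfl, h2⟩
        exact mem_iUnion.2 ⟨a 0, y 1, ⟨fun j => a (j + 1), fun j => y (j + 1), fun j => h1 (j + 1), rfl, h2⟩,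
          (h1 0).2.symm⟩
      · rw [ENNReal.tsum_eq_iSup_nat]
        exact iSup_le fun M => (n4 _ (Ss n P) M).trans (mul_le_of_le_one_left'
          (ENNReal.ofReal_le_one.2 (sub_le_self _ (by positivity))))
  have S2 : ∀ M r : ℕ, ν (S 0 fun a => ∀ j < r, a j < M) ≤ .ofReal ((1 - 1 / (M + 1)) ^ r) := fun M r => by
    induction r with
    | zero => exact (measure_mono (Ss 0 fun a => ∀ j < 0, a j < M)).trans ((n1 _).trans (by simp))
    | succ r ih =>
      refine (measure_mono (t := ⋃ b ∈ Finset.range M, f b '' S 0 fun a => ∀ j < r, a j < M) ?_).trans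
        ((measure_biUnion_finset_le _ _).trans ((n4 _ (Ss 0 fun a => ∀ j < r, a j < M) M).trans ?_))
      · rintro _ ⟨a, y, h1, rfl, h2⟩
        exact mem_iUnion₂.2 ⟨a 0, Finset.mem_range.2 (h2 0 (by omega)), y 1, ⟨fun j => a (j + 1),
          fun j => y (j + 1), fun j => h1 (j + 1), rfl, fun j hj => h2 (j + 1) (by omega)⟩, (h1 0).2.symm⟩
      · rw [pow_succ', ENNReal.ofReal_mul (by rw [sub_nonneg, div_le_one (by positivity)]; simp)]
        gcongr
  have S3 : ∀ n : ℕ, ν (S 0 fun a => 2 ^ n ≤ a 0) ≤ .ofReal ((1 / 2) ^ n) := fun n => by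
    refine (measure_mono (t := Icc 0 ((1 / 2) ^ n)) ?_).trans ((n1 _).trans (by simp))
    rintro _ ⟨a, y, h1, rfl, h2⟩
    refine ⟨(h1 0).1.1, ((h1 0).2.trans_le (h.rng _ _ (h1 1).1).2).trans ?_⟩
    rw [one_div_pow]; gcongr
    exact_mod_cast Nat.le_succ_of_le h2
  have A1 := ae_eventually_notMem (μ := ν) (s := fun n => S n fun a => 2 ^ n ≤ a 0) (ne_top_of_le_ne_top
    summable_geometric_two.tsum_ofReal_ne_top (ENNReal.tsum_le_tsum fun n => (S1 n fun a => 2 ^ n ≤ a 0).trans (S3 n)))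
  have A2 := ae_all_iff.2 fun M : ℕ => ae_eventually_notMem (μ := ν)
    (s := fun k => S (k ^ 2) fun a => ∀ j < k + 1, a j < M) (ne_top_of_le_ne_top
    ((summable_nat_add_iff 1).2 (summable_geometric_of_lt_one (r := 1 - 1 / (M + 1))
      (by rw [sub_nonneg, div_le_one (by positivity)]; simp) (sub_lt_self _ (by positivity)))).tsum_ofReal_ne_top
    (ENNReal.tsum_le_tsum fun k => (S1 (k ^ 2) fun a => ∀ j < k + 1, a j < M).trans (S2 M (k + 1))))
  have A3 : ∀ᵐ x ∂ν, x ∉ {y ∈ X | ∃ n, T^[n] y = 0} :=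
    measure_eq_zero_iff_ae_notMem.1 (nonpos_iff_eq_zero.1 ((n1 _).trans_eq (h.bad.measure_zero volume)))
  have : ν {x ∈ X | dimH (AS T X x) = 1 / 2} ≠ 0 := fun e => n2 (by
    refine measure_mono_null (fun x hx => ?_) (measure_union_null e (A1.and (A2.and A3)))
    refine or_iff_not_imp_right.2 fun k => ⟨hx, ?_⟩
    obtain ⟨k1, k2, k3⟩ := not_not.1 k
    obtain ⟨c, hc⟩ := h.orb hx fun g => k3 ⟨hx, g⟩
    refine h.top hx hc (k1.mono fun n hn => not_le.1 fun e => hn ⟨c, _, hc, rfl, by simpa using e⟩)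
      fun M => (k2 M).mono fun k hk => ?_
    by_contra! hh
    exact hk ⟨c, _, hc, rfl, fun j hj => by simpa [add_comm] using hh j hj⟩)
  refine le_antisymm ((dimH_mono (subset_univ _)).trans_eq Real.dimH_univ) ?_
  refine le_dimH_of_hausdorffMeasure_ne_zero (d := 1) fun e => this (nonpos_iff_eq_zero.1 ((n1 _).trans_eq ?_))
  simpa using e

end Pool.Agent.H.MP_4648ce_an
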