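import Pool.Agent.H.MP_4648ce_an.C

set_option autoImplicit false
open Set Filter Topology MeasureTheory
open scoped ENNReal NNReal

namespace Pool.Agent.H.MP_4648ce_an

/-- The Gauss map. -/
noncomputable def G (x : ℝ) : ℝ := if x = 0 then 0 else 1 / x - ⌊1 / x⌋

lemma sysG : Sys G (Ico 0 1) fun a u => 1 / (a + 1 + u) where
  sub := Ico_subset_Icc_self
  maps x _ := by
    rw [G]; split_ifs
    · simp
    · exact ⟨Int.fract_nonneg _, Int.fract_lt_one _⟩
  zero := by simp [G]
  cnt := (countable_range fun n : ℤ => (n : ℝ)⁻¹).mono fun y hy => by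
    have := hy.2
    rw [G] at this
    split_ifs at this with e
    · exact ⟨0, by simp [e]⟩
    · exact ⟨⌊1 / y⌋, by simp only [← sub_eq_zero.1 this]; simp⟩
  dig y hy e := by
    have y0 : y ≠ 0 := by rintro rfl; simp [G] at e
    have : 1 ≤ ⌊1 / y⌋ := Int.le_floor.2 (by
      rw [le_div_iff₀ (hy.1.lt_of_ne' y0)]; simpa using hy.2.le)
    obtain ⟨a, ha⟩ := Int.eq_ofNat_of_zero_le (sub_nonneg.2 this)
    refine ⟨a, ?_⟩
    have : (a : ℝ) = ⌊1 / y⌋ - 1 := by exact_mod_cast ha.symm
    rw [G, if_neg y0, this]; simp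
  inv a u hu := by
    have a0 : (0 : ℝ) ≤ a := a.cast_nonneg
    have p : 0 < a + 1 + u := by linarith [hu.1]
    refine ⟨⟨by positivity, (div_lt_one p).2 (by linarith [hu.1])⟩, ?_⟩
    have : ⌊(a : ℝ) + 1 + u⌋ = a + 1 := Int.floor_eq_iff.2 (by push_cast; constructor <;> linarith [hu.1, hu.2])
    rw [G, if_neg (by positivity), one_div_one_div, this]; simp
  lo a u hu v hv := by
    have a0 : (0 : ℝ) ≤ a := a.cast_nonneg
    obtain ⟨u0, u1⟩ := hu
    obtain ⟨v0, v1⟩ := hv
    rw [show u - v = -((a + 1 + u) * (a + 1 + v)) * (1 / (a + 1 + u) - 1 / (a + 1 + v)) by field_simp; ring,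
      abs_mul, abs_neg, abs_of_nonneg (by positivity)]
    gcongr; nlinarith
  hi a u hu v hv := by
    have a0 : (0 : ℝ) ≤ a := a.cast_nonneg
    obtain ⟨u0, u1⟩ := hu
    obtain ⟨v0, v1⟩ := hv
    rw [show u - v = -((a + 1 + u) * (a + 1 + v)) * (1 / (a + 1 + u) - 1 / (a + 1 + v)) by field_simp; ring,
      abs_mul, abs_neg, abs_of_nonneg (a := _ * _) (by positivity)]
    gcongr; nlinarith
  rng a u hu := by
    have := hu.1
    constructor <;> exact one_div_le_one_div_of_le (by positivity) (by linarith [hu.2])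
  adj := ⟨1, .inr rfl, fun a => ⟨by ring, by simp⟩⟩

noncomputable def lf (a : ℕ) (u : ℝ) : ℝ := (u + a + 1) / ((a + 1) * (a + 2))

lemma sysL {L : ℝ → ℝ} (L0 : L 0 = 0) (Lm : MapsTo L (Icc 0 1) (Icc 0 1))
    (hL : ∀ a : ℕ, ∀ x ∈ Ioo (1 / (a + 2) : ℝ) (1 / (a + 1)), L x = (a + 1) * (a + 2) * x - (a + 1))
    (hL' : ∀ y ∈ Icc (0 : ℝ) 1, L y ≠ 0 → ∃ a : ℕ, L y = (a + 1) * (a + 2) * y - (a + 1)) :
    Sys L (Icc 0 1) lf where
  sub := subset_rfl
  maps := Lm
  zero := L0
  cnt := (countable_range fun n : ℕ => (n : ℝ)⁻¹).mono fun y hy => by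
    by_contra hh
    have y0 : 0 < y := hy.1.1.lt_of_ne fun e => hh ⟨0, by simp [← e]⟩
    have n1 : 1 ≤ ⌊1 / y⌋₊ := Nat.le_floor (by rw [le_div_iff₀ y0]; simpa using hy.1.2)
    obtain ⟨a, ha⟩ := Nat.exists_eq_add_of_le' n1
    have h1 := Nat.floor_le (a := 1 / y) (by positivity)
    have h2 := Nat.lt_floor_add_one (1 / y)
    rw [ha] at h1 h2
    push_cast at h1 h2
    have h3 : 1 / (a + 2 : ℝ) < y := by
      rw [div_lt_iff₀ y0] at h2; rw [div_lt_iff₀ (by positivity)]; linarith
    have := hL a y ⟨h3, lt_of_le_of_ne (by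
      rw [le_div_iff₀ y0] at h1; rw [le_div_iff₀ (by positivity)]; linarith) fun e => hh ⟨a + 1, by simp [e]⟩⟩
    rw [hy.2] at this
    rw [div_lt_iff₀ (by positivity)] at h3
    nlinarith [(a.cast_nonneg : (0 : ℝ) ≤ a)]
  dig y hy e := by
    obtain ⟨a, ha⟩ := hL' y hy e
    exact ⟨a, by rw [lf, ha]; field_simp; ring⟩
  inv a u hu := by
    have a0 : (0 : ℝ) ≤ a := a.cast_nonneg
    obtain ⟨u0, u1⟩ := hu
    refine ⟨⟨by rw [lf]; positivity, (div_le_one (by positivity)).2 (by nlinarith)⟩, ?_⟩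
    rw [hL a _ ⟨?_, ?_⟩, lf]
    · field_simp; ring
    all_goals rw [lf, div_lt_div_iff₀ (by positivity) (by positivity)]; nlinarith
  lo a u _ v _ := by
    rw [show u - v = (a + 1) * (a + 2) * (lf a u - lf a v) by simp only [lf]; field_simp; ring,
      abs_mul, abs_of_nonneg (by positivity)]
    gcongr; nlinarith [(a.cast_nonneg : (0 : ℝ) ≤ a)]
  hi a u _ v _ := by
    rw [show u - v = (a + 1) * (a + 2) * (lf a u - lf a v) by simp only [lf]; field_simp; ring,
      abs_mul, abs_of_nonneg (a := _ * _) (by positivity)]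
    gcongr; nlinarith [(a.cast_nonneg : (0 : ℝ) ≤ a)]
  rng a u hu := by
    have a0 : (0 : ℝ) ≤ a := a.cast_nonneg
    obtain ⟨u0, u1⟩ := hu
    constructor <;> rw [lf, div_le_div_iff₀ (by positivity) (by positivity)] <;> nlinarith
  adj := ⟨0, .inl rfl, fun a => by simp only [lf]; constructor <;> field_simp <;> ring⟩

lemma Sys.luroth {L : ℝ → ℝ} (h : Sys L (Icc 0 1) lf) :
    dimH {x ∈ Icc (0 : ℝ) 1 | dimH (AS L (Icc 0 1) x) = 1 / 2} = 1 := by
  refine h.full volume le_rfl (by simp) fun E _ _ M => ?_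
  have : ∀ a : ℕ, volume (lf a '' E) = .ofReal (1 / ((a + 1) * (a + 2))) * volume E := fun a => by
    have : lf a '' E = (fun x : ℝ => (a + 1) * (a + 2) * x) ⁻¹' ((fun x : ℝ => x + -(a + 1)) ⁻¹' E) := by
      ext x
      exact ⟨by
        rintro ⟨u, hu, rfl⟩
        rw [mem_preimage, mem_preimage]; convert hu; simp only [lf]; field_simp; ring,
        fun hx => ⟨_, hx, by simp only [lf]; field_simp; ring⟩⟩
    rw [this, Real.volume_preimage_mul_left (by positivity), measure_preimage_add_right,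
      abs_of_nonneg (by positivity), one_div]
  simp only [this]
  rw [← Finset.sum_mul, ← ENNReal.ofReal_sum_of_nonneg fun _ _ => by positivity]
  gcongr
  induction M with
  | zero => simp
  | succ M ih => rw [Finset.sum_range_succ]; refine (add_le_add_left ih _).trans_eq ?_; push_cast; field_simp; ring

lemma gaussFull : dimH {x ∈ Ico (0 : ℝ) 1 | dimH (AS G (Ico 0 1) x) = 1 / 2} = 1 := by
  let g : ℝ → ℝ≥0∞ := fun x => .ofReal (1 / (1 + |x|))
  have gm : Measurable g := by fun_prop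
  refine sysG.full (volume.withDensity g) ((withDensity_mono (g := fun _ => 1) (.of_forall fun x =>
    ENNReal.ofReal_le_one.2 ((div_le_one (by positivity)).2 (by simp)))).trans (by simp)) ?_ fun E hE mE M => ?_
  · intro e
    simpa using withDensity_absolutelyContinuous' gm.aemeasurable (.of_forall fun x => by
      simp only [g, ne_eq, ENNReal.ofReal_eq_zero, not_le]; positivity) e
  have : ∀ a : ℕ, volume.withDensity g ((fun u => 1 / (a + 1 + u)) '' E) =
      ∫⁻ u in E, .ofReal (1 / (a + 1 + u) - 1 / (a + 2 + u)) := fun a => by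
    have a0 : (0 : ℝ) ≤ a := a.cast_nonneg
    have hd : ∀ u ∈ E, HasDerivWithinAt (fun u : ℝ => 1 / (a + 1 + u)) (-1 / (a + 1 + u) ^ 2) E u :=
      fun u hu => by
        have := (hE hu).1
        simp only [one_div]
        exact (((hasDerivAt_id u).const_add ((a : ℝ) + 1)).fun_inv (by positivity)).hasDerivWithinAt
    have inj : InjOn (fun u : ℝ => 1 / (a + 1 + u)) E := fun u _ v _ e => by simpa using e
    rw [withDensity_apply' , lintegral_image_eq_lintegral_abs_deriv_mul mE hd inj]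
    refine setLIntegral_congr_fun mE fun u hu => ?_
    have := (hE hu).1
    simp only [g]
    rw [← ENNReal.ofReal_mul (abs_nonneg _), abs_of_nonpos (by rw [neg_div, neg_nonpos]; positivity),
      abs_of_nonneg (by positivity)]
    congr 1; field_simp; ring
  simp only [this]
  rw [← lintegral_finsetSum _ fun _ _ => by fun_prop, withDensity_apply', ← lintegral_const_mul _ gm]
  refine setLIntegral_mono' mE fun u hu => ?_
  have u0 := (hE hu).1
  rw [← ENNReal.ofReal_sum_of_nonneg fun a _ => by rw [sub_nonneg]; gcongr; norm_num,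
    ← ENNReal.ofReal_mul (by rw [sub_nonneg, div_le_one (by positivity)]; simp), abs_of_nonneg u0]
  refine ENNReal.ofReal_le_ofReal ?_
  have : ∑ a ∈ Finset.range M, (1 / ((a : ℝ) + 1 + u) - 1 / (a + 2 + u)) = 1 / (1 + u) - 1 / (M + 1 + u) := by
    induction M with
    | zero => simp
    | succ M ih => rw [Finset.sum_range_succ, ih]; push_cast; ring
  rw [this, sub_mul, one_mul, div_mul_div_comm, one_mul]
  gcongr
  nlinarith [(M.cast_nonneg : (0 : ℝ) ≤ M)]

end Pool.Agent.H.MP_4648ce_an
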